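import Pool.Agent.P.MP_328b17_nt.Trunc

/-! The closed forms modulo `z ^ 5` and the value of the original sum. -/

namespace Pool.Agent.P.MP_328b17_nt

open Finset

variable {R : Type*} [CommRing R]

lemma prod_approx {z : R} (hz : z ^ 5 = 0) (u f h : ℕ → R) (d : ℕ)
    (hu : ∀ i, i < d → IsUnit (u i)) (hf : ∀ i, i < d → f i = u i + z ^ 2 * h i) :
    z ^ 2 * ((∏ i ∈ range d, f i) * Ring.inverse (∏ i ∈ range d, u i)) =
      z ^ 2 + z ^ 4 * ∑ i ∈ range d, h i * Ring.inverse (u i) := by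
  induction d with
  | zero => simp
  | succ d ih =>
    have ih' := ih (fun i hi => hu i (by omega)) (fun i hi => hf i (by omega))
    have hi := Ring.mul_inverse_cancel _ (hu d (by omega))
    rw [prod_range_succ, prod_range_succ, sum_range_succ, Ring.mul_inverse_rev, hf d (by omega)]
    generalize Ring.inverse (u d) = w at hi ⊢
    generalize Ring.inverse (∏ i ∈ range d, u i) = W at ih' ⊢
    generalize ∏ i ∈ range d, f i = F at ih' ⊢
    generalize ∑ i ∈ range d, h i * Ring.inverse (u i) = S at ih' ⊢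
    linear_combination (z ^ 2 * F * W) * hi + (1 + z ^ 2 * h d * w) * ih' + z * S * h d * w * hz

lemma inv_z {z : R} (hz : z ^ 5 = 0) {u : R} (hu : IsUnit u) (k : R) :
    z ^ 4 * Ring.inverse (u + z * k) = z ^ 4 * Ring.inverse u := by
  have h1 := Ring.mul_inverse_cancel _ hu
  have h2 := Ring.mul_inverse_cancel _ (isUnit_add_z hz hu k)
  generalize Ring.inverse (u + z * k) = w at h2 ⊢
  generalize Ring.inverse u = w0 at h1 ⊢
  linear_combination (-z ^ 4 * w) * h1 + z ^ 4 * w0 * h2 - k * w * w0 * hz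

lemma quad_sum (n V : R) (m : ℕ) :
    (1 - V) ^ 2 * ∑ k ∈ range m, (k : R) * (n - k) * V ^ k =
      (n + 1) * V - 2 * V * ∑ k ∈ range m, V ^ k - m * (n - m) * V ^ m +
        (m - 1) * (n - (m - 1)) * V ^ (m + 1) := by
  induction m with
  | zero => simp; ring
  | succ m ih =>
    rw [sum_range_succ, sum_range_succ, mul_add, ih]
    push_cast
    ring

lemma quad_sum' (n : R) (m : ℕ) :
    6 * ∑ k ∈ range m, (k : R) * (n - k) = 3 * n * m * (m - 1) - (m - 1) * m * (2 * m - 1) := by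
  induction m with
  | zero => simp
  | succ m ih =>
    rw [sum_range_succ, mul_add, ih]
    push_cast
    ring

lemma z4_ex {z : R} (hz : z ^ 5 = 0) (c : R) : z ^ 4 * ex z c = z ^ 4 := by
  unfold ex; grind

lemma z4_geom {z : R} {V : R} (hV : IsUnit (1 - V)) {n : ℕ} (hn : z ^ 4 * V ^ n = z ^ 4) :
    z ^ 4 * ∑ k ∈ range n, V ^ k = 0 := by
  apply hV.mul_left_cancel
  have := mul_neg_geom_sum V n
  linear_combination z ^ 4 * this - hn

lemma sumV {z : R} (hz : z ^ 5 = 0) (hq : ∀ m : ℕ, m ≠ 0 → IsUnit (m : R)) {Q : R} {d : ℕ}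
    (hn : Q ^ (d + 1) = ex z (2 * d)) (hU : ∀ i, i < d → IsUnit (1 - Q ^ (i + 1))) :
    12 * (z ^ 4 * ∑ i ∈ range d, Q ^ (i + 1) * Ring.inverse ((1 - Q ^ (i + 1)) ^ 2)) =
      -z ^ 4 * ((d + 1) ^ 2 - 1) := by
  have hp : ∀ i : ℕ, z ^ 4 * (Q ^ i) ^ (d + 1) = z ^ 4 := fun i => by
    rw [← pow_mul, mul_comm i, pow_mul, hn, ex_pow hz, z4_ex hz]
  have h1 : ∀ i, i < d → 2 * ((d : R) + 1) * (z ^ 4 * (Q ^ (i + 1) *
      Ring.inverse ((1 - Q ^ (i + 1)) ^ 2))) =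
      z ^ 4 * ∑ k ∈ range (d + 1), (k : R) * ((d + 1) - k) * (Q ^ (i + 1)) ^ k := by
    intro i hi
    have hV := hU i hi
    have hg := z4_geom hV (hp (i + 1))
    have hs := quad_sum ((d : R) + 1) (Q ^ (i + 1)) (d + 1)
    have hi := Ring.mul_inverse_cancel _ (hV.pow 2)
    have hp' := hp (i + 1)
    apply (hV.pow 2).mul_left_cancel
    push_cast at hs
    rw [pow_succ (Q ^ (i + 1)) (d + 1)] at hs
    generalize Ring.inverse ((1 - Q ^ (i + 1)) ^ 2) = w at hi ⊢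
    generalize ∑ k ∈ range (d + 1), (k : R) * ((d + 1) - k) * (Q ^ (i + 1)) ^ k = S at hs ⊢
    generalize ∑ k ∈ range (d + 1), (Q ^ (i + 1)) ^ k = S0 at hs hg
    generalize (Q ^ (i + 1)) ^ (d + 1) = W at hs hp'
    generalize Q ^ (i + 1) = V at hs hi hg hp' ⊢
    linear_combination (2 * ((d : R) + 1) * z ^ 4 * V) * hi - z ^ 4 * hs + 2 * V * hg -
      (d : R) * V * hp'
  have h2 : ∀ k ∈ range (d + 1), (k : R) * ((d + 1) - k) *
      (z ^ 4 * ∑ i ∈ range d, (Q ^ (i + 1)) ^ k) = -z ^ 4 * ((k : R) * ((d + 1) - k)) := by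
    intro k hk
    rcases k with _ | k
    · simp
    · have hV := hU k (by have := mem_range.1 hk; omega)
      have hg := z4_geom hV (hp (k + 1))
      rw [sum_range_succ'] at hg
      have : ∑ i ∈ range d, (Q ^ (i + 1)) ^ (k + 1) = ∑ i ∈ range d, (Q ^ (k + 1)) ^ (i + 1) :=
        sum_congr rfl fun i _ => by rw [← pow_mul, ← pow_mul, mul_comm]
      rw [this]
      linear_combination ((k + 1 : ℕ) : R) * ((d + 1) - ((k + 1 : ℕ) : R)) * hg
  have h3 : 2 * ((d : R) + 1) *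
      (z ^ 4 * ∑ i ∈ range d, Q ^ (i + 1) * Ring.inverse ((1 - Q ^ (i + 1)) ^ 2)) =
      -z ^ 4 * ∑ k ∈ range (d + 1), (k : R) * ((d + 1) - k) := by
    rw [mul_sum, mul_sum, sum_congr rfl fun i hi => h1 i (mem_range.1 hi), mul_sum,
      ← sum_congr rfl h2]
    simp only [mul_sum]
    rw [sum_comm]
    refine sum_congr rfl fun k _ => sum_congr rfl fun i _ => by ring
  have h4 := quad_sum' ((d : R) + 1) (d + 1)
  have hu := hq (d + 1) (by omega)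
  apply hu.mul_left_cancel
  push_cast at h4 ⊢
  linear_combination 6 * h3 - z ^ 4 * h4

lemma pi_ex {z : R} (hz : z ^ 5 = 0) (a b : R) : ∃ π : R, (1 - ex z a) * (1 - ex z b) =
    z ^ 2 * π ∧ z ^ 4 * π = 36 * a * b * z ^ 4 := by
  refine ⟨(6 * a + 18 * a ^ 2 * z + 36 * a ^ 3 * z ^ 2 + 54 * a ^ 4 * z ^ 3) *
    (6 * b + 18 * b ^ 2 * z + 36 * b ^ 3 * z ^ 2 + 54 * b ^ 4 * z ^ 3), ?_, ?_⟩
  · unfold ex; ring
  · grind

lemma kappa_ex {z : R} (hz : z ^ 5 = 0) (g g' : R) :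
    ∃ κ : R, ex z (-g - 1) + ex z (-g' - 1) - ex z (-2) - ex z (-g - g') =
      z ^ 2 * κ ∧ z ^ 4 * κ = -36 * (1 - g) * (1 - g') * z ^ 4 := by
  refine ⟨18 * ((-g - 1) ^ 2 + (-g' - 1) ^ 2 - (-2) ^ 2 - (-g - g') ^ 2) +
    36 * z * ((-g - 1) ^ 3 + (-g' - 1) ^ 3 - (-2) ^ 3 - (-g - g') ^ 3) +
    54 * z ^ 2 * ((-g - 1) ^ 4 + (-g' - 1) ^ 4 - (-2) ^ 4 - (-g - g') ^ 4), ?_, ?_⟩
  · unfold ex; ring
  · grind

/-- the closed form of a deformed sum -/
noncomputable def GG (z Q g g' : R) (d : ℕ) : R :=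
  poch (Q * ex z (-2)) Q (d + 1) * poch (ex z (-g - g')) Q d *
    Ring.inverse (poch (Q * ex z (-g - 1)) Q d * poch (Q * ex z (-g' - 1)) Q d)

lemma GG_eq {z : R} (hz : z ^ 5 = 0) (hq : ∀ m : ℕ, m ≠ 0 → IsUnit (m : R)) {Q : R} {d : ℕ}
    (hn : Q ^ (d + 1) = ex z (2 * d)) (hU : ∀ i, i < d → IsUnit (1 - Q ^ (i + 1))) (g g' : R) :
    GG z Q g g' d * (1 - ex z (-g - g') * Q ^ d) =
      (1 - ex z (2 * d - 2)) * (1 - ex z (-g - g')) +
        108 * (2 * d - 2) * (-g - g') * (1 - g) * (1 - g') * ((d + 1) ^ 2 - 1) * z ^ 4 := by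
  have e1 : poch (Q * ex z (-2)) Q (d + 1) = poch (Q * ex z (-2)) Q d * (1 - ex z (2 * d - 2)) := by
    rw [poch_succ, sub_eq_add_neg (2 * (d : R)), ex_add hz, ← hn]; ring
  have e2 : poch (ex z (-g - g')) Q d * (1 - ex z (-g - g') * Q ^ d) =
      (1 - ex z (-g - g')) * poch (ex z (-g - g') * Q) Q d := by
    rw [← poch_succ, poch_succ']
  obtain ⟨κ, hκ, hκ4⟩ := kappa_ex hz g g'
  obtain ⟨π, hπ, hπ4⟩ := pi_ex hz (2 * (d : R) - 2) (-g - g')
  have hprod : ex z (-2) * ex z (-g - g') = ex z (-g - 1) * ex z (-g' - 1) := by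
    rw [← ex_add hz, ← ex_add hz]; congr 1; ring
  have hpa := prod_approx hz
    (fun i => (1 - Q * ex z (-g - 1) * Q ^ i) * (1 - Q * ex z (-g' - 1) * Q ^ i))
    (fun i => (1 - Q * ex z (-2) * Q ^ i) * (1 - ex z (-g - g') * Q * Q ^ i))
    (fun i => Q ^ (i + 1) * κ) d
    (fun i hi => by
      have a1 := unit_ex hz (hU i hi) (-g - 1)
      have a2 := unit_ex hz (hU i hi) (-g' - 1)
      rw [show Q * ex z (-g - 1) * Q ^ i = Q ^ (i + 1) * ex z (-g - 1) by ring,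
        show Q * ex z (-g' - 1) * Q ^ i = Q ^ (i + 1) * ex z (-g' - 1) by ring]
      exact a1.mul a2)
    (fun i _ => by
      rw [pow_succ]
      linear_combination (Q ^ i * Q) * hκ + (Q ^ i * Q) ^ 2 * hprod)
  have hs : z ^ 4 * ∑ i ∈ range d, Q ^ (i + 1) * κ * Ring.inverse
      ((1 - Q * ex z (-g - 1) * Q ^ i) * (1 - Q * ex z (-g' - 1) * Q ^ i)) =
      κ * (z ^ 4 * ∑ i ∈ range d, Q ^ (i + 1) * Ring.inverse ((1 - Q ^ (i + 1)) ^ 2)) := by
    rw [mul_sum, mul_sum, mul_sum]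
    refine sum_congr rfl fun i hi => ?_
    obtain ⟨k, hk⟩ : ∃ k : R, (1 - Q * ex z (-g - 1) * Q ^ i) * (1 - Q * ex z (-g' - 1) * Q ^ i) =
        (1 - Q ^ (i + 1)) ^ 2 + z * k := by
      obtain ⟨k1, h1⟩ : ∃ k1, ex z (-g - 1) = 1 + z * k1 :=
        ⟨6 * (-g - 1) + 18 * (-g - 1) ^ 2 * z + 36 * (-g - 1) ^ 3 * z ^ 2 +
          54 * (-g - 1) ^ 4 * z ^ 3, by unfold ex; ring⟩
      obtain ⟨k2, h2⟩ : ∃ k2, ex z (-g' - 1) = 1 + z * k2 :=
        ⟨6 * (-g' - 1) + 18 * (-g' - 1) ^ 2 * z + 36 * (-g' - 1) ^ 3 * z ^ 2 +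
          54 * (-g' - 1) ^ 4 * z ^ 3, by unfold ex; ring⟩
      refine ⟨-(1 - Q ^ (i + 1)) * Q ^ (i + 1) * (k1 + k2) + (Q ^ (i + 1)) ^ 2 * z * k1 * k2, ?_⟩
      rw [h1, h2]; ring
    have := inv_z hz ((hU i (mem_range.1 hi)).pow 2) k
    rw [hk]
    linear_combination Q ^ (i + 1) * κ * this
  have hv := sumV hz hq hn hU
  rw [hs, prod_mul_distrib, prod_mul_distrib] at hpa
  change z ^ 2 * (poch (Q * ex z (-2)) Q d * poch (ex z (-g - g') * Q) Q d *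
    Ring.inverse (poch (Q * ex z (-g - 1)) Q d * poch (Q * ex z (-g' - 1)) Q d)) = _ at hpa
  rw [GG, e1]
  generalize Ring.inverse (poch (Q * ex z (-g - 1)) Q d * poch (Q * ex z (-g' - 1)) Q d) = w
    at hpa ⊢
  generalize ∑ i ∈ range d, Q ^ (i + 1) * Ring.inverse ((1 - Q ^ (i + 1)) ^ 2) = S at hpa hv
  have f1 : poch (Q * ex z (-2)) Q d * (1 - ex z (2 * d - 2)) * poch (ex z (-g - g')) Q d * w *
      (1 - ex z (-g - g') * Q ^ d) =
      π * (z ^ 2 * (poch (Q * ex z (-2)) Q d * poch (ex z (-g - g') * Q) Q d * w)) := by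
    linear_combination poch (Q * ex z (-2)) Q d * (1 - ex z (2 * d - 2)) * w * e2 +
      poch (Q * ex z (-2)) Q d * poch (ex z (-g - g') * Q) Q d * w * hπ
  rw [f1, hpa, hπ]
  linear_combination (κ * S) * hπ4 + (36 * (2 * (d : R) - 2) * (-g - g') * S) * hκ4 -
    (108 * (2 * (d : R) - 2) * (-g - g') * (1 - g) * (1 - g')) * hv

lemma drop_unit {z : R} (hz : z ^ 5 = 0) {y u u0 c : R} (hu : IsUnit u) (k : R)
    (h0 : u0 = u + z * k) (h : y * u = z ^ 4 * c) : y * u0 = z ^ 4 * c := by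
  have h1 := Ring.mul_inverse_cancel _ hu
  generalize Ring.inverse u = w at h1
  subst h0
  linear_combination (1 + z * k * w) * h - y * z * k * h1 + c * k * w * hz

theorem main_trunc {z : R} (hz : z ^ 5 = 0) (hq : ∀ m : ℕ, m ≠ 0 → IsUnit (m : R)) {Q Qi : R}
    (hQ : Q * Qi = 1) {d : ℕ} (hd : 1 ≤ d) (hn : Q ^ (d + 1) = ex z (2 * d))
    (hU : ∀ i, i < d → IsUnit (1 - Q ^ (i + 1)))
    (H0 : ∑ k ∈ range (d + 1), tt z Q Qi d 1 (-1) k = GG z Q 1 (-1) d)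
    (H1 : ∑ k ∈ range (d + 1), tt z Q Qi d 1 1 k = GG z Q 1 1 d)
    (H2 : ∑ k ∈ range (d + 1), tt z Q Qi d (-1) 3 k = GG z Q (-1) 3 d)
    (H3 : ∑ k ∈ range (d + 1), tt z Q Qi d (-1) (-1) k = GG z Q (-1) (-1) d)
    (H4 : ∑ k ∈ range (d + 1), tt z Q Qi d 1 (-3) k = GG z Q 1 (-3) d) :
    (∑ k ∈ range (d + 1), t0 Q (Q * ex z (-2)) d k) * (1 - Q ^ d) =
      z ^ 4 * (288 * d * (d - 1) ^ 2 * (2 * d - 1) * ((d + 1) ^ 2 - 1)) := by
  have h2 : IsUnit (2 : R) := by simpa using hq 2 (by omega)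
  have h48 : IsUnit (48 : R) := by simpa using hq 48 (by omega)
  have hs : 48 * (∑ k ∈ range (d + 1), t0 Q (Q * ex z (-2)) d k - GG z Q 1 (-1) d) =
      4 * d * (d - 1) * (2 * d - 1) * (GG z Q (-1) 3 d - GG z Q 1 1 d +
        GG z Q (-1) (-1) d - GG z Q 1 (-3) d) := by
    rw [← H0, ← H1, ← H2, ← H3, ← H4, ← sum_sub_distrib, ← sum_sub_distrib, ← sum_add_distrib,
      ← sum_sub_distrib, mul_sum, mul_sum]
    refine sum_congr rfl fun k hk => ?_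
    exact term_lin hz h2 hQ hn k fun i hi => hU i (by have := mem_range.1 hk; omega)
  have g0 : GG z Q 1 (-1) d = 0 := by
    obtain ⟨e, rfl⟩ : ∃ e, d = e + 1 := ⟨d - 1, by omega⟩
    have : (-1 - -1 : R) = 0 := by ring
    rw [GG, this, ex_zero, poch_succ' 1]
    simp
  have hud : IsUnit (1 - Q ^ d) := by
    have := hU (d - 1) (by omega)
    rwa [show d - 1 + 1 = d by omega] at this
  have g1 := GG_eq hz hq hn hU 1 1
  have g2 := GG_eq hz hq hn hU (-1) 3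
  have g3 := GG_eq hz hq hn hU (-1) (-1)
  have g4 := GG_eq hz hq hn hU 1 (-3)
  have a1 : (-1 - 1 : R) = -2 := by ring
  have a2 : (-(-1) - 3 : R) = -2 := by ring
  have a3 : (-(-1) - -1 : R) = 2 := by ring
  have a4 : (-1 - -3 : R) = 2 := by ring
  rw [a1] at g1
  rw [a2] at g2
  rw [a3] at g3
  rw [a4] at g4
  have hu (c : R) : IsUnit (1 - ex z c * Q ^ d) := by
    rw [mul_comm]; exact unit_ex hz hud c
  have hk (c : R) : 1 - Q ^ d = (1 - ex z c * Q ^ d) +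
      z * (Q ^ d * (6 * c + 18 * c ^ 2 * z + 36 * c ^ 3 * z ^ 2 + 54 * c ^ 4 * z ^ 3)) := by
    unfold ex; ring
  have b1 : (GG z Q (-1) 3 d - GG z Q 1 1 d) * (1 - Q ^ d) =
      z ^ 4 * (1728 * (d - 1) * ((d + 1) ^ 2 - 1)) :=
    drop_unit hz (hu (-2)) _ (hk (-2)) (by linear_combination g2 - g1)
  have b2 : (GG z Q (-1) (-1) d - GG z Q 1 (-3) d) * (1 - Q ^ d) =
      z ^ 4 * (1728 * (d - 1) * ((d + 1) ^ 2 - 1)) :=
    drop_unit hz (hu 2) _ (hk 2) (by linear_combination g3 - g4)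
  apply h48.mul_left_cancel
  rw [g0] at hs
  linear_combination (1 - Q ^ d) * hs + 4 * d * (d - 1) * (2 * d - 1) * (b1 + b2)

end Pool.Agent.P.MP_328b17_nt
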