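import Pool.Agent.P.MP_328b17_nt.Closed

/-! Transport of identities from a fraction field to a quotient ring. -/

namespace Pool.Agent.P.MP_328b17_nt

open Finset

section
variable {A K R : Type*} [CommRing A] [Field K] [CommRing R]

/-- `x` has a representation `a / b` with `b` invertible in `R`, and `y` is its value in `R` -/
def Rel (f : A →+* K) (g : A →+* R) (x : K) (y : R) : Prop :=
  ∃ a b : A, IsUnit (g b) ∧ x * f b = f a ∧ y * g b = g a

variable {f : A →+* K} {g : A →+* R}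

lemma Rel.alg (a : A) : Rel f g (f a) (g a) := ⟨a, 1, by simp, by simp, by simp⟩

lemma Rel.one : Rel f g 1 1 := by simpa using Rel.alg (f := f) (g := g) 1

lemma Rel.zero : Rel f g 0 0 := by simpa using Rel.alg (f := f) (g := g) 0

lemma Rel.add {x x' : K} {y y' : R} (h : Rel f g x y) (h' : Rel f g x' y') :
    Rel f g (x + x') (y + y') := by
  obtain ⟨a, b, hb, h1, h2⟩ := h
  obtain ⟨a', b', hb', h1', h2'⟩ := h'
  refine ⟨a * b' + a' * b, b * b', by rw [map_mul]; exact hb.mul hb', ?_, ?_⟩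
  · simp only [map_mul, map_add]; linear_combination f b' * h1 + f b * h1'
  · simp only [map_mul, map_add]; linear_combination g b' * h2 + g b * h2'

lemma Rel.mul {x x' : K} {y y' : R} (h : Rel f g x y) (h' : Rel f g x' y') :
    Rel f g (x * x') (y * y') := by
  obtain ⟨a, b, hb, h1, h2⟩ := h
  obtain ⟨a', b', hb', h1', h2'⟩ := h'
  refine ⟨a * a', b * b', by rw [map_mul]; exact hb.mul hb', ?_, ?_⟩
  · simp only [map_mul]; rw [← h1, ← h1']; ring
  · simp only [map_mul]; rw [← h2, ← h2']; ring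

lemma Rel.sub {x x' : K} {y y' : R} (h : Rel f g x y) (h' : Rel f g x' y') :
    Rel f g (x - x') (y - y') := by
  have hm : Rel f g (-1) (-1) := by simpa using Rel.alg (f := f) (g := g) (-1)
  have := h.add (hm.mul h')
  simpa [sub_eq_add_neg] using this

lemma Rel.pow {x : K} {y : R} (h : Rel f g x y) (m : ℕ) : Rel f g (x ^ m) (y ^ m) := by
  induction m with
  | zero => simpa using Rel.one
  | succ m ih => rw [pow_succ, pow_succ]; exact ih.mul h

lemma Rel.sum {x : ℕ → K} {y : ℕ → R} (m : ℕ) (h : ∀ i, i < m → Rel f g (x i) (y i)) :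
    Rel f g (∑ i ∈ range m, x i) (∑ i ∈ range m, y i) := by
  induction m with
  | zero => simpa using Rel.zero
  | succ m ih =>
    rw [sum_range_succ, sum_range_succ]
    exact (ih fun i hi => h i (by omega)).add (h m (by omega))

lemma Rel.poch {a b : K} {a' b' : R} (ha : Rel f g a a') (hb : Rel f g b b') (k : ℕ) :
    Rel f g (poch a b k) (poch a' b' k) := by
  induction k with
  | zero => simpa [poch_zero] using Rel.one
  | succ k ih => rw [poch_succ, poch_succ]; exact ih.mul (Rel.one.sub (ha.mul (hb.pow k)))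

lemma Rel.inv [Nontrivial R] (hf : Function.Injective f) {x : K} {y : R} (h : Rel f g x y)
    (hy : IsUnit y) : Rel f g (Ring.inverse x) (Ring.inverse y) := by
  obtain ⟨a, b, hb, h1, h2⟩ := h
  have ha : IsUnit (g a) := h2 ▸ hy.mul hb
  have ha0 : a ≠ 0 := by rintro rfl; simp at ha
  have hfa : f a ≠ 0 := fun h => ha0 (hf (by simpa using h))
  have hx : x ≠ 0 := by rintro rfl; exact hfa (by simpa using h1.symm)
  refine ⟨b, a, ha, ?_, ?_⟩
  · rw [Ring.inverse_eq_inv', ← h1]; field_simp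
  · rw [← h2, ← mul_assoc, Ring.inverse_mul_cancel _ hy, one_mul]

lemma Rel.func (hf : Function.Injective f) {x : K} {y y' : R} (h : Rel f g x y)
    (h' : Rel f g x y') : y = y' := by
  obtain ⟨a, b, hb, h1, h2⟩ := h
  obtain ⟨a', b', hb', h1', h2'⟩ := h'
  have : a * b' = a' * b := hf (by simp only [map_mul]; rw [← h1, ← h1']; ring)
  have h3 := congrArg g this
  simp only [map_mul] at h3
  apply (hb.mul hb').mul_right_cancel
  linear_combination g b' * h2 - g b * h2' + h3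

lemma Rel.term6 [Nontrivial R] (hf : Function.Injective f) {Q a c e b c' e' b' z : K}
    {Q1 a1 c1 e1 b1 c1' e1' b1' z1 : R} (hQ : Rel f g Q Q1) (ha : Rel f g a a1)
    (hc : Rel f g c c1) (he : Rel f g e e1) (hb : Rel f g b b1) (hc' : Rel f g c' c1')
    (he' : Rel f g e' e1') (hb' : Rel f g b' b1') (hz : Rel f g z z1) (k : ℕ)
    (hu : IsUnit (MP_328b17_nt.poch Q1 Q1 k * MP_328b17_nt.poch c1' Q1 k *
      MP_328b17_nt.poch e1' Q1 k * MP_328b17_nt.poch b1' Q1 k)) :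
    Rel f g (term6 Q a c e b c' e' b' z k) (term6 Q1 a1 c1 e1 b1 c1' e1' b1' z1 k) :=
  (((Rel.one.sub (ha.mul (hQ.pow _))).mul
    ((((ha.poch hQ k).mul (hc.poch hQ k)).mul (he.poch hQ k)).mul (hb.poch hQ k))).mul
    (Rel.inv hf ((((hQ.poch hQ k).mul (hc'.poch hQ k)).mul (he'.poch hQ k)).mul (hb'.poch hQ k))
      hu)).mul (hz.pow k)

lemma Rel.t0 [Nontrivial R] (hf : Function.Injective f) {Q a : K} {Q1 a1 : R}
    (hQ : Rel f g Q Q1) (ha : Rel f g a a1) (d k : ℕ) (hu : IsUnit (MP_328b17_nt.poch Q1 Q1 k)) :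
    Rel f g (t0 Q a d k) (t0 Q1 a1 d k) :=
  ((Rel.one.sub (ha.mul (hQ.pow _))).mul
    (((ha.poch hQ k).mul (Rel.inv hf (hQ.poch hQ k) hu)).pow _)).mul ((hQ.pow d).pow k)

lemma Rel.zpow_ex [Nontrivial R] (hf : Function.Injective f) {W : K} {z : R} (hz : z ^ 5 = 0)
    (h : Rel f g W (ex z 2)) (m : ℤ) : Rel f g (W ^ m) (ex z (2 * m)) := by
  have hn (k : ℕ) : Rel f g (W ^ k) (ex z (2 * k)) := by
    have := h.pow k
    rwa [ex_pow hz, mul_comm] at this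
  rcases m with k | k
  · simpa using hn k
  · have h1 : ex z (2 * ((k + 1 : ℕ) : R)) * ex z (2 * ((Int.negSucc k : ℤ) : R)) = 1 := by
      rw [← ex_add hz, ← ex_zero z]; congr 1; push_cast; ring
    have hu : IsUnit (ex z (2 * ((k + 1 : ℕ) : R))) := IsUnit.of_mul_eq_one _ h1
    have h2 := Rel.inv hf (hn (k + 1)) hu
    have h3 : Ring.inverse (ex z (2 * ((k + 1 : ℕ) : R))) =
        ex z (2 * ((Int.negSucc k : ℤ) : R)) := by
      apply hu.mul_left_cancel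
      rw [Ring.mul_inverse_cancel _ hu, h1]
    rw [h3, Ring.inverse_eq_inv'] at h2
    rwa [zpow_negSucc]

/-- the summation formula in the shape needed -/
lemma six_inst {Q W : K} (hQ0 : Q ≠ 0) (hW0 : W ≠ 0) {d : ℕ} (hn : Q ^ (d + 1) = W ^ d)
    (m m' : ℤ) (h0 : ∀ i, 1 - Q * Q ^ i ≠ 0) (h1 : ∀ i, 1 - Q * W ^ (-1 : ℤ) * Q ^ i ≠ 0)
    (hm : ∀ i, 1 - Q * W ^ (-m) * Q ^ i ≠ 0) (hm' : ∀ i, 1 - Q * W ^ (-m') * Q ^ i ≠ 0) :
    ∑ k ∈ range (d + 1), term6 Q (Q * W ^ (-1 : ℤ)) (Q * W ^ (m - 1)) (Q * W ^ (m' - 1))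
      (Q * W ^ (-(d : ℤ))) (Q * W ^ (-m)) (Q * W ^ (-m')) (Q * W ^ ((d : ℤ) - 1))
      (Ring.inverse Q * W ^ ((d : ℤ) + 1 - m - m')) k =
      poch (Q * W ^ (-1 : ℤ)) Q (d + 1) * poch (W ^ (1 - m - m')) Q d *
        Ring.inverse (poch (Q * W ^ (-m)) Q d * poch (Q * W ^ (-m')) Q d) := by
  have hT : W ^ m ≠ 0 := zpow_ne_zero _ hW0
  have hT' : W ^ m' ≠ 0 := zpow_ne_zero _ hW0
  have hD : W ^ d ≠ 0 := pow_ne_zero _ hW0
  have hQd : Q ^ d ≠ 0 := pow_ne_zero _ hQ0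
  have e1 : Q * W ^ (-1 : ℤ) * Q / (Q * W ^ (m - 1)) = Q * W ^ (-m) := by
    rw [zpow_sub₀ hW0, zpow_neg, zpow_neg, zpow_one]; field_simp
  have e2 : Q * W ^ (-1 : ℤ) * Q / (Q * W ^ (m' - 1)) = Q * W ^ (-m') := by
    rw [zpow_sub₀ hW0, zpow_neg, zpow_neg, zpow_one]; field_simp
  have e3 : (Q ^ d)⁻¹ = Q * W ^ (-(d : ℤ)) := by
    rw [zpow_neg, zpow_natCast, ← hn, pow_succ]; field_simp
  have e4 : Q * W ^ (-1 : ℤ) * Q ^ (d + 1) = Q * W ^ ((d : ℤ) - 1) := by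
    rw [zpow_sub₀ hW0, zpow_neg, zpow_one, zpow_natCast, hn]; field_simp
  have e5 : Q * W ^ ((d : ℤ) - 1) / (Q * W ^ (m - 1) * (Q * W ^ (m' - 1))) =
      Ring.inverse Q * W ^ ((d : ℤ) + 1 - m - m') := by
    simp only [zpow_sub₀ hW0, zpow_add₀ hW0, zpow_one, zpow_natCast, Ring.inverse_eq_inv']
    field_simp
  have e6 : Q * W ^ (-1 : ℤ) * Q / (Q * W ^ (m - 1) * (Q * W ^ (m' - 1))) = W ^ (1 - m - m') := by
    simp only [zpow_sub₀ hW0, zpow_neg, zpow_one]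
    field_simp
  have h := six Q hQ0 h0 d (Q * W ^ (-1 : ℤ)) (Q * W ^ (m - 1)) (Q * W ^ (m' - 1))
    (mul_ne_zero hQ0 (zpow_ne_zero _ hW0)) (mul_ne_zero hQ0 (zpow_ne_zero _ hW0))
    (by rw [e1]; exact hm) (by rw [e2]; exact hm') h1
  simp only [t6] at h
  rw [e1, e2, e3, e4, e5, e6] at h
  rw [h, Ring.inverse_eq_inv', div_eq_mul_inv]

lemma H_inst [Nontrivial R] (hf : Function.Injective f) {Q W : K} (hQ0 : Q ≠ 0) (hW0 : W ≠ 0)
    {d : ℕ} (hn : Q ^ (d + 1) = W ^ d) (m m' : ℤ) (h0 : ∀ i, 1 - Q * Q ^ i ≠ 0)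
    (h1 : ∀ i, 1 - Q * W ^ (-1 : ℤ) * Q ^ i ≠ 0)
    (hm : ∀ i, 1 - Q * W ^ (-m) * Q ^ i ≠ 0) (hm' : ∀ i, 1 - Q * W ^ (-m') * Q ^ i ≠ 0)
    {z Q1 : R} (hz : z ^ 5 = 0) (hQ : Rel f g Q Q1) (hQu : IsUnit Q1) (hW : Rel f g W (ex z 2))
    (hU : ∀ i, i < d → IsUnit (1 - Q1 ^ (i + 1))) (γ γ' : R) (hγ : γ = 2 * m - 1)
    (hγ' : γ' = 2 * m' - 1) :
    ∑ k ∈ range (d + 1), tt z Q1 (Ring.inverse Q1) d γ γ' k = GG z Q1 γ γ' d := by
  have hw (e : ℤ) (c : R) (hc : c = 2 * e) : Rel f g (W ^ e) (ex z c) := hc ▸ hW.zpow_ex hf hz e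
  have hqw (e : ℤ) (c : R) (hc : c = 2 * e) : Rel f g (Q * W ^ e) (Q1 * ex z c) :=
    hQ.mul (hw e c hc)
  have r1 := hqw (-1) (-2) (by push_cast; ring)
  have r2 := hqw (m - 1) (γ - 1) (by rw [hγ]; push_cast; ring)
  have r3 := hqw (m' - 1) (γ' - 1) (by rw [hγ']; push_cast; ring)
  have r4 := hqw (-(d : ℤ)) (-2 * d) (by push_cast; ring)
  have r5 := hqw (-m) (-γ - 1) (by rw [hγ]; push_cast; ring)
  have r6 := hqw (-m') (-γ' - 1) (by rw [hγ']; push_cast; ring)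
  have r7 := hqw ((d : ℤ) - 1) (2 * d - 2) (by push_cast; ring)
  have r8 := (Rel.inv hf hQ hQu).mul
    (hw ((d : ℤ) + 1 - m - m') (2 * d - γ - γ') (by rw [hγ, hγ']; push_cast; ring))
  have r9 := hw (1 - m - m') (-γ - γ') (by rw [hγ, hγ']; push_cast; ring)
  have hl := Rel.sum (f := f) (g := g) (d + 1) fun k hk =>
    Rel.term6 hf hQ r1 r2 r3 r4 r5 r6 r7 r8 k (by
      have hU' : ∀ i, i < k → IsUnit (1 - Q1 ^ (i + 1)) := fun i hi => hU i (by omega)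
      have u1 := poch_unit hz 0 k hU'
      rw [ex_zero, mul_one] at u1
      exact ((u1.mul (poch_unit hz _ k hU')).mul (poch_unit hz _ k hU')).mul
        (poch_unit hz _ k hU'))
  rw [six_inst hQ0 hW0 hn m m' h0 h1 hm hm'] at hl
  refine Rel.func hf hl ?_
  exact ((r1.poch hQ _).mul (r9.poch hQ _)).mul (Rel.inv hf ((r5.poch hQ _).mul (r6.poch hQ _))
    ((poch_unit hz _ d hU).mul (poch_unit hz _ d hU)))

end

end Pool.Agent.P.MP_328b17_nt
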