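import Mathlib

/-! The terminating very-well-poised summation of six over five type. -/

namespace Pool.Agent.P.MP_328b17_nt

open Finset

section Ring
variable {R : Type*} [CommRing R]

/-- shifted factorial -/
def poch (a b : R) (k : ℕ) : R := ∏ i ∈ range k, (1 - a * b ^ i)

lemma poch_zero (a b : R) : poch a b 0 = 1 := by simp [poch]

lemma poch_succ (a b : R) (k : ℕ) : poch a b (k + 1) = poch a b k * (1 - a * b ^ k) := by
  simp [poch, prod_range_succ]

lemma poch_succ' (a b : R) (k : ℕ) : poch a b (k + 1) = (1 - a) * poch (a * b) b k := by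
  rw [poch, prod_range_succ', poch, mul_comm]
  simp only [pow_zero, mul_one]
  congr 1
  refine prod_congr rfl fun i _ => ?_
  ring

/-- general term, with the lower parameters and the argument named separately -/
noncomputable def term6 (Q a c e b c' e' b' z : R) (k : ℕ) : R :=
  (1 - a * Q ^ (2 * k)) * (poch a Q k * poch c Q k * poch e Q k * poch b Q k) *
    Ring.inverse (poch Q Q k * poch c' Q k * poch e' Q k * poch b' Q k) * z ^ k

end Ring

section Field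
variable {K : Type*} [Field K]

lemma poch_ne_zero {a b : K} (h : ∀ i, 1 - a * b ^ i ≠ 0) (k : ℕ) : poch a b k ≠ 0 :=
  prod_ne_zero_iff.2 fun i _ => h i

/-- term of the terminating series -/
noncomputable def t6 (Q a c e : K) (N k : ℕ) : K :=
  term6 Q a c e (Q ^ N)⁻¹ (a * Q / c) (a * Q / e) (a * Q ^ (N + 1)) (a * Q ^ (N + 1) / (c * e)) k

lemma t6_top (Q a c e : K) (hQ0 : Q ≠ 0) (N : ℕ) : t6 Q a c e N (N + 1) = 0 := by
  have : poch (Q ^ N)⁻¹ Q (N + 1) = 0 := by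
    rw [poch_succ, inv_mul_cancel₀ (pow_ne_zero _ hQ0)]; simp
  simp [t6, term6, this]

lemma t6_zero (Q a c e : K) (N : ℕ) : t6 Q a c e N 0 = 1 - a := by
  simp [t6, term6, poch_zero]

lemma t6_step (Q a c e : K) (hQ0 : Q ≠ 0) (hc : c ≠ 0) (he : e ≠ 0)
    (hQ : ∀ i, 1 - Q * Q ^ i ≠ 0) (hc' : ∀ i, 1 - a * Q / c * Q ^ i ≠ 0)
    (he' : ∀ i, 1 - a * Q / e * Q ^ i ≠ 0) (ha : ∀ i, 1 - a * Q ^ i ≠ 0) (N l : ℕ) :
    t6 Q a c e (N + 1) (l + 1) = t6 Q a c e N (l + 1) -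
      (1 - a) * (1 - a * Q) * (1 - c) * (1 - e) /
        ((1 - a * Q / c) * (1 - a * Q / e) * (1 - a * Q ^ (N + 1)) * (1 - a * Q ^ (N + 2))) *
        (a * Q ^ (N + 1) / (c * e)) * t6 Q (a * Q ^ 2) (c * Q) (e * Q) N l := by
  have e1 : poch a Q (l + 1) * (1 - a * Q ^ (l + 1)) = (1 - a) * (1 - a * Q) * poch (a * Q ^ 2) Q l := by
    rw [← poch_succ, poch_succ', poch_succ']
    ring_nf
  have e2 : a * Q ^ 2 * Q / (c * Q) = a * Q / c * Q := by field_simp
  have e3 : a * Q ^ 2 * Q / (e * Q) = a * Q / e * Q := by field_simp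
  have e4 : a * Q ^ 2 * Q ^ (N + 1) / (c * Q * (e * Q)) = a * Q ^ (N + 1) / (c * e) := by
    field_simp
  have e5 : (Q ^ (N + 1))⁻¹ * Q = (Q ^ N)⁻¹ := by rw [pow_succ]; field_simp
  have e6 : a * Q ^ (N + 1 + 1) / (c * e) = a * Q ^ (N + 1) / (c * e) * Q := by
    rw [pow_succ]; field_simp
  have e7 : poch (a * Q ^ (N + 1 + 1)) Q (l + 1) =
      (1 - a * Q ^ (N + 2)) * poch (a * Q ^ 2 * Q ^ (N + 1)) Q l := by
    rw [poch_succ']; congr 2; ring
  have e8 : poch (a * Q ^ (N + 1)) Q (l + 1) * (1 - a * Q ^ (N + 1) * Q ^ (l + 1)) =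
      (1 - a * Q ^ (N + 1)) * (1 - a * Q ^ (N + 2)) * poch (a * Q ^ 2 * Q ^ (N + 1)) Q l := by
    have a1 : a * Q ^ (N + 1) * Q = a * Q ^ (N + 2) := by ring
    have a2 : a * Q ^ (N + 2) * Q = a * Q ^ 2 * Q ^ (N + 1) := by ring
    rw [← poch_succ, poch_succ', poch_succ', a1, a2, ← mul_assoc]
  have n1 : 1 - a * Q ^ (l + 1) ≠ 0 := ha _
  have n2 : 1 - a * Q ^ (N + 1) * Q ^ (l + 1) ≠ 0 := by
    rw [mul_assoc, ← pow_add]; exact ha _
  have n3 : 1 - a * Q ^ (N + 1) ≠ 0 := ha _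
  have n4 : 1 - a * Q ^ (N + 2) ≠ 0 := ha _
  have n5 : 1 - a * Q / c ≠ 0 := by simpa using hc' 0
  have n6 : 1 - a * Q / e ≠ 0 := by simpa using he' 0
  have n7 : poch Q Q l ≠ 0 := poch_ne_zero hQ l
  have n8 : poch (a * Q / c * Q) Q l ≠ 0 := poch_ne_zero (fun i => by
    rw [mul_assoc, ← pow_succ']; exact hc' _) l
  have n9 : poch (a * Q / e * Q) Q l ≠ 0 := poch_ne_zero (fun i => by
    rw [mul_assoc, ← pow_succ']; exact he' _) l
  have n10 : poch (a * Q ^ 2 * Q ^ (N + 1)) Q l ≠ 0 := poch_ne_zero (fun i => by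
    rw [mul_assoc, mul_assoc, ← pow_add, ← pow_add]; exact ha _) l
  have n11 : 1 - Q * Q ^ l ≠ 0 := hQ l
  have f1 := eq_div_of_mul_eq n1 e1
  have f8 := eq_div_of_mul_eq n2 e8
  simp only [t6, term6, Ring.inverse_eq_inv']
  rw [e2, e3, e4, e6, e7, f1, f8, poch_succ' c, poch_succ' e, poch_succ' (a * Q / c),
    poch_succ' (a * Q / e), poch_succ Q Q, poch_succ' (Q ^ (N + 1))⁻¹, e5, poch_succ (Q ^ N)⁻¹]
  generalize poch (a * Q ^ 2) Q l = P1
  generalize poch (c * Q) Q l = P2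
  generalize poch (e * Q) Q l = P3
  generalize poch (Q ^ N)⁻¹ Q l = P4
  generalize poch Q Q l = P5 at n7 ⊢
  generalize poch (a * Q / c * Q) Q l = P6 at n8 ⊢
  generalize poch (a * Q / e * Q) Q l = P7 at n9 ⊢
  generalize poch (a * Q ^ 2 * Q ^ (N + 1)) Q l = P8 at n10 ⊢
  generalize 1 - a * Q / c = u1 at n5 ⊢
  generalize 1 - a * Q / e = u2 at n6 ⊢
  generalize a * Q ^ (N + 1) / (c * e) = z
  have g1 : Q ^ (2 * (l + 1)) = (Q ^ l) ^ 2 * Q ^ 2 := by ring
  have g2 : Q ^ (2 * l) = (Q ^ l) ^ 2 := by ring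
  have g3 : (z * Q) ^ (l + 1) = z ^ l * z * Q ^ l * Q := by ring
  have hM : Q ^ N ≠ 0 := pow_ne_zero _ hQ0
  rw [g1, g2, g3, pow_succ z l]
  simp only [pow_succ Q l, pow_succ Q (N + 1), pow_succ Q N] at n1 n2 n3 n4 ⊢
  generalize Q ^ l = L at n1 n2 n11 ⊢
  generalize Q ^ N = M at n2 n3 n4 hM ⊢
  generalize z ^ l = Z
  generalize h1 : 1 - a * (L * Q) = v1 at n1 ⊢
  generalize h2 : 1 - a * (M * Q) * (L * Q) = v2 at n2 ⊢
  generalize h3 : 1 - a * (M * Q) = v3 at n3 ⊢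
  generalize h4 : 1 - a * (M * Q * Q) = v4 at n4 ⊢
  generalize h5 : 1 - Q * L = v5 at n11 ⊢
  field_simp
  subst h1 h2 h3 h4 h5
  ring

theorem six (Q : K) (hQ0 : Q ≠ 0) (hQ : ∀ i, 1 - Q * Q ^ i ≠ 0) (N : ℕ) :
    ∀ a c e : K, c ≠ 0 → e ≠ 0 → (∀ i, 1 - a * Q / c * Q ^ i ≠ 0) →
      (∀ i, 1 - a * Q / e * Q ^ i ≠ 0) → (∀ i, 1 - a * Q ^ i ≠ 0) →
      ∑ k ∈ range (N + 1), t6 Q a c e N k =
        poch a Q (N + 1) * poch (a * Q / (c * e)) Q N /
          (poch (a * Q / c) Q N * poch (a * Q / e) Q N) := by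
  induction N with
  | zero => intro a c e _ _ _ _ _; simp [t6_zero, poch_succ, poch_zero]
  | succ N ih =>
    intro a c e hc he hc' he' ha
    have e2 : a * Q ^ 2 * Q / (c * Q) = a * Q / c * Q := by field_simp
    have e3 : a * Q ^ 2 * Q / (e * Q) = a * Q / e * Q := by field_simp
    have e4 : a * Q ^ 2 * Q / (c * Q * (e * Q)) = a * Q / (c * e) := by field_simp
    have ih1 := ih a c e hc he hc' he' ha
    have ih2 := ih (a * Q ^ 2) (c * Q) (e * Q) (mul_ne_zero hc hQ0) (mul_ne_zero he hQ0)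
      (fun i => by rw [e2, mul_assoc, ← pow_succ']; exact hc' _)
      (fun i => by rw [e3, mul_assoc, ← pow_succ']; exact he' _)
      (fun i => by rw [mul_assoc, ← pow_add]; exact ha _)
    have s1 : ∑ k ∈ range (N + 1), t6 Q a c e N (k + 1) + (1 - a) =
        ∑ k ∈ range (N + 1), t6 Q a c e N k := by
      rw [← t6_zero Q a c e N, ← sum_range_succ', sum_range_succ, t6_top Q a c e hQ0, add_zero]
    rw [sum_range_succ', t6_zero]
    simp only [t6_step Q a c e hQ0 hc he hQ hc' he' ha N]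
    rw [sum_sub_distrib, ← mul_sum, ih2, sub_add_eq_add_sub, s1, ih1, e2, e3, e4]
    have e8 : (1 - a) * (1 - a * Q) * poch (a * Q ^ 2) Q (N + 1) =
        poch a Q (N + 1) * (1 - a * Q ^ (N + 1)) * (1 - a * Q ^ (N + 2)) := by
      rw [← poch_succ, ← poch_succ, poch_succ' a, poch_succ' (a * Q), mul_assoc]
      congr 3; ring
    have n5 : 1 - a * Q / c ≠ 0 := by simpa using hc' 0
    have n6 : 1 - a * Q / e ≠ 0 := by simpa using he' 0
    have n3 : 1 - a * Q ^ (N + 1) ≠ 0 := ha _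
    have n4 : 1 - a * Q ^ (N + 2) ≠ 0 := ha _
    have m1 : (1 - a * Q / c) * poch (a * Q / c * Q) Q N =
        poch (a * Q / c) Q N * (1 - a * Q / c * Q ^ N) := by rw [← poch_succ', poch_succ]
    have m2 : (1 - a * Q / e) * poch (a * Q / e * Q) Q N =
        poch (a * Q / e) Q N * (1 - a * Q / e * Q ^ N) := by rw [← poch_succ', poch_succ]
    have n7 : poch (a * Q / c) Q N ≠ 0 := poch_ne_zero hc' N
    have n8 : poch (a * Q / e) Q N ≠ 0 := poch_ne_zero he' N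
    have n9 : 1 - a * Q / c * Q ^ N ≠ 0 := hc' N
    have n10 : 1 - a * Q / e * Q ^ N ≠ 0 := he' N
    have m1' : poch (a * Q / c * Q) Q N =
        poch (a * Q / c) Q N * (1 - a * Q / c * Q ^ N) / (1 - a * Q / c) := by
      rw [← m1, mul_div_cancel_left₀ _ n5]
    have m2' : poch (a * Q / e * Q) Q N =
        poch (a * Q / e) Q N * (1 - a * Q / e * Q ^ N) / (1 - a * Q / e) := by
      rw [← m2, mul_div_cancel_left₀ _ n6]
    have key : (1 - a) * (1 - a * Q) * (1 - c) * (1 - e) /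
        ((1 - a * Q / c) * (1 - a * Q / e) * (1 - a * Q ^ (N + 1)) * (1 - a * Q ^ (N + 2))) *
        (a * Q ^ (N + 1) / (c * e)) *
        (poch (a * Q ^ 2) Q (N + 1) * poch (a * Q / (c * e)) Q N /
          (poch (a * Q / c * Q) Q N * poch (a * Q / e * Q) Q N)) =
        poch a Q (N + 1) * (1 - c) * (1 - e) * (a * Q ^ (N + 1) / (c * e)) *
          poch (a * Q / (c * e)) Q N /
          (poch (a * Q / c) Q N * (1 - a * Q / c * Q ^ N) *
            (poch (a * Q / e) Q N * (1 - a * Q / e * Q ^ N))) := by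
      rw [m1', m2']
      generalize 1 - a * Q / c * Q ^ N = v1 at n9 ⊢
      generalize 1 - a * Q / e * Q ^ N = v2 at n10 ⊢
      generalize 1 - a * Q / c = u1 at n5 ⊢
      generalize 1 - a * Q / e = u2 at n6 ⊢
      generalize 1 - a * Q ^ (N + 1) = u3 at n3 e8 ⊢
      generalize 1 - a * Q ^ (N + 2) = u4 at n4 e8 ⊢
      generalize a * Q ^ (N + 1) / (c * e) = z
      generalize poch (a * Q / c) Q N = P1 at n7 ⊢
      generalize poch (a * Q / e) Q N = P2 at n8 ⊢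
      generalize poch (a * Q / (c * e)) Q N = P3
      have k0 : (1 - a) * (1 - a * Q) * (1 - c) * (1 - e) / (u1 * u2 * u3 * u4) * z *
          (poch (a * Q ^ 2) Q (N + 1) * P3 / (P1 * v1 / u1 * (P2 * v2 / u2))) =
          ((1 - a) * (1 - a * Q) * poch (a * Q ^ 2) Q (N + 1)) * (1 - c) * (1 - e) * z * P3 /
            (u3 * u4 * (P1 * v1 * (P2 * v2))) := by
        field_simp
      rw [k0, e8]
      field_simp
    rw [key, poch_succ a Q (N + 1), poch_succ (a * Q / (c * e)), poch_succ (a * Q / c),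
      poch_succ (a * Q / e)]
    generalize poch (a * Q / c) Q N = P1 at n7 ⊢
    generalize poch (a * Q / e) Q N = P2 at n8 ⊢
    generalize poch (a * Q / (c * e)) Q N = P3
    generalize poch a Q (N + 1) = P4
    rw [pow_succ Q N]
    generalize Q ^ N = M at n9 n10 ⊢
    generalize h1 : 1 - a * Q / c * M = v1 at n9 ⊢
    generalize h2 : 1 - a * Q / e * M = v2 at n10 ⊢
    have k1 : P4 * P3 / (P1 * P2) = P4 * P3 * v1 * v2 / (P1 * v1 * (P2 * v2)) := by field_simp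
    rw [k1, ← sub_div]
    congr 1
    subst h1 h2
    field_simp
    ring

end Field

end Pool.Agent.P.MP_328b17_nt
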