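import Pool.Agent.P.MP_328b17_nt.Six

/-! Computations in a commutative ring with an element `z` such that `z ^ 5 = 0`. -/

namespace Pool.Agent.P.MP_328b17_nt

open Finset

variable {R : Type*} [CommRing R]

/-- truncated exponential of `6 c z` -/
def ex (z c : R) : R :=
  1 + 6 * c * z + 18 * c ^ 2 * z ^ 2 + 36 * c ^ 3 * z ^ 3 + 54 * c ^ 4 * z ^ 4

/-- truncated exponential of `6 A z + 18 B z ^ 3` -/
def La (z A B : R) : R := ex z A * (1 + 18 * z ^ 3 * B)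

lemma ex_zero (z : R) : ex z 0 = 1 := by simp [ex]

lemma ex_add {z : R} (hz : z ^ 5 = 0) (a b : R) : ex z (a + b) = ex z a * ex z b := by
  unfold ex; grind

lemma La_add {z : R} (hz : z ^ 5 = 0) (a b a' b' : R) :
    La z (a + a') (b + b') = La z a b * La z a' b' := by
  unfold La; rw [ex_add hz]; grind

lemma La_zero (z : R) : La z 0 0 = 1 := by simp [La, ex_zero]

lemma La_ex (z a : R) : La z a 0 = ex z a := by simp [La]

lemma La_pow {z : R} (hz : z ^ 5 = 0) (a b : R) (m : ℕ) :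
    La z a b ^ m = La z (m * a) (m * b) := by
  induction m with
  | zero => simp [La_zero]
  | succ m ih => rw [pow_succ, ih, ← La_add hz]; congr 1 <;> push_cast <;> ring

lemma ex_pow {z : R} (hz : z ^ 5 = 0) (a : R) (m : ℕ) : ex z a ^ m = ex z (m * a) := by
  rw [← La_ex, La_pow hz, mul_zero, La_ex]

lemma fac {z : R} (hz : z ^ 5 = 0) (r c : R) :
    (r + 1) - (r - 1) * ex z c =
      ((r + 1) - (r - 1) * ex z (-c)) * La z ((1 - r) * c) ((r - r ^ 3) * c ^ 3) := by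
  unfold La ex; grind

lemma exi (η : R) (h : η ^ 5 = 0) :
    ex (η - 6 * η ^ 2 + 48 * η ^ 3 - 432 * η ^ 4) 2 = 1 + 12 * η := by
  unfold ex; grind

lemma lin {z : R} (hz : z ^ 5 = 0) (A B d : R) :
   48 * (La z (A * (-2 * d)) (B * (-2 * d)) -
      La z (A * (-2 * d + 1 + -1)) (B * (-1 + (1 - 2 * d) ^ 3 + 1 ^ 3 + (-1) ^ 3))) =
     4 * d * (d - 1) * (2 * d - 1) *
      (La z (A * (-2 * d + -1 + 3)) (B * (-1 + (1 - 2 * d) ^ 3 + (-1) ^ 3 + 3 ^ 3)) -
       La z (A * (-2 * d + 1 + 1)) (B * (-1 + (1 - 2 * d) ^ 3 + 1 ^ 3 + 1 ^ 3)) +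
       La z (A * (-2 * d + -1 + -1)) (B * (-1 + (1 - 2 * d) ^ 3 + (-1) ^ 3 + (-1) ^ 3)) -
       La z (A * (-2 * d + 1 + -3)) (B * (-1 + (1 - 2 * d) ^ 3 + 1 ^ 3 + (-3) ^ 3))) := by
  unfold La ex; grind

lemma isUnit_add_z {z : R} (hz : z ^ 5 = 0) {u : R} (hu : IsUnit u) (k : R) :
    IsUnit (u + z * k) := by
  have hn : IsNilpotent (z * k) := ⟨5, by rw [mul_pow, hz, zero_mul]⟩
  exact hn.isUnit_add_left_of_commute hu (Commute.all _ _)

lemma unit_ex {z : R} (hz : z ^ 5 = 0) {V : R} (hV : IsUnit (1 - V)) (c : R) :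
    IsUnit (1 - V * ex z c) := by
  have := isUnit_add_z hz hV
    (-V * (6 * c + 18 * c ^ 2 * z + 36 * c ^ 3 * z ^ 2 + 54 * c ^ 4 * z ^ 3))
  convert this using 1
  unfold ex; ring

/-- the quantity `(1 + U) / (1 - U)` for `U = V * ex (-1)` -/
noncomputable def rho (z V : R) : R :=
  (1 + V * ex z (-1)) * Ring.inverse (1 - V * ex z (-1))

lemma fac' {z : R} (hz : z ^ 5 = 0) (h2 : IsUnit (2 : R)) {V : R} (hV : IsUnit (1 - V)) (c : R) :
    1 - V * ex z (c - 1) = (1 - V * ex z (-c - 1)) *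
      La z ((1 - rho z V) * c) ((rho z V - rho z V ^ 3) * c ^ 3) := by
  have hu := unit_ex hz hV (-1)
  have hr : rho z V * (1 - V * ex z (-1)) = 1 + V * ex z (-1) := by
    rw [rho, mul_assoc, Ring.inverse_mul_cancel _ hu, mul_one]
  have h := fac hz (rho z V) c
  rw [sub_eq_add_neg c, sub_eq_add_neg (-c), ex_add hz, ex_add hz]
  apply h2.mul_left_cancel
  generalize La z ((1 - rho z V) * c) ((rho z V - rho z V ^ 3) * c ^ 3) = L at h ⊢
  generalize rho z V = r at h hr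
  linear_combination (1 - V * ex z (-1)) * h - (1 - ex z c - L + ex z (-c) * L) * hr

/-- sum of first order coefficients -/
noncomputable def AA (z Q : R) (k : ℕ) : R := ∑ i ∈ range k, (1 - rho z (Q ^ (i + 1)))

/-- sum of third order coefficients -/
noncomputable def BB (z Q : R) (k : ℕ) : R :=
  ∑ i ∈ range k, (rho z (Q ^ (i + 1)) - rho z (Q ^ (i + 1)) ^ 3)

lemma poch_rel {z : R} (hz : z ^ 5 = 0) (h2 : IsUnit (2 : R)) {Q : R} (c : R) (k : ℕ)
    (hU : ∀ i, i < k → IsUnit (1 - Q ^ (i + 1))) :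
    poch (Q * ex z (c - 1)) Q k =
      poch (Q * ex z (-c - 1)) Q k * La z (AA z Q k * c) (BB z Q k * c ^ 3) := by
  induction k with
  | zero => simp [poch_zero, AA, BB, La_zero]
  | succ k ih =>
    have hA : AA z Q (k + 1) = AA z Q k + (1 - rho z (Q ^ (k + 1))) := by
      rw [AA, sum_range_succ, AA]
    have hB : BB z Q (k + 1) = BB z Q k + (rho z (Q ^ (k + 1)) - rho z (Q ^ (k + 1)) ^ 3) := by
      rw [BB, sum_range_succ, BB]
    rw [poch_succ, poch_succ, ih fun i hi => hU i (by omega), hA, hB, add_mul, add_mul,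
      La_add hz]
    have h := fac' hz h2 (hU k (by omega)) c
    have e1 : Q * ex z (c - 1) * Q ^ k = Q ^ (k + 1) * ex z (c - 1) := by ring
    have e2 : Q * ex z (-c - 1) * Q ^ k = Q ^ (k + 1) * ex z (-c - 1) := by ring
    rw [e1, e2, h]
    ring

lemma poch_unit {z : R} (hz : z ^ 5 = 0) {Q : R} (c : R) (k : ℕ)
    (hU : ∀ i, i < k → IsUnit (1 - Q ^ (i + 1))) : IsUnit (poch (Q * ex z c) Q k) := by
  rw [poch, IsUnit.prod_iff]
  intro i hi
  have := unit_ex hz (hU i (mem_range.1 hi)) c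
  rwa [show Q * ex z c * Q ^ i = Q ^ (i + 1) * ex z c by ring]

/-- the term of a deformed sum -/
noncomputable def tt (z Q Qi D g g' : R) (k : ℕ) : R :=
  term6 Q (Q * ex z (-2)) (Q * ex z (g - 1)) (Q * ex z (g' - 1)) (Q * ex z (-2 * D))
    (Q * ex z (-g - 1)) (Q * ex z (-g' - 1)) (Q * ex z (2 * D - 2)) (Qi * ex z (2 * D - g - g')) k

lemma tt_eq {z : R} (hz : z ^ 5 = 0) (h2 : IsUnit (2 : R)) {Q : R} (Qi D g g' : R) (k : ℕ)
    (hU : ∀ i, i < k → IsUnit (1 - Q ^ (i + 1))) :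
    tt z Q Qi D g g' k = (1 - Q * ex z (-2) * Q ^ (2 * k)) * Qi ^ k *
      La z ((AA z Q k - k) * (-2 * D + g + g'))
        (BB z Q k * (-1 + (1 - 2 * D) ^ 3 + g ^ 3 + g' ^ 3)) := by
  have h1 := poch_rel hz h2 (-1) k hU
  have h3 := poch_rel hz h2 g k hU
  have h4 := poch_rel hz h2 g' k hU
  have h5 := poch_rel hz h2 (1 - 2 * D) k hU
  have a1 : (-1 - 1 : R) = -2 := by ring
  have a2 : (-(-1) - 1 : R) = 0 := by ring
  have a3 : (1 - 2 * D - 1 : R) = -2 * D := by ring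
  have a4 : (-(1 - 2 * D) - 1 : R) = 2 * D - 2 := by ring
  rw [a1, a2, ex_zero, mul_one] at h1
  rw [a3, a4] at h5
  have u1 := poch_unit hz 0 k hU
  rw [ex_zero, mul_one] at u1
  have u := ((u1.mul (poch_unit hz (-g - 1) k hU)).mul (poch_unit hz (-g' - 1) k hU)).mul
    (poch_unit hz (2 * D - 2) k hU)
  have hi := Ring.mul_inverse_cancel _ u
  rw [tt, term6, h1, h3, h4, h5, mul_pow, ex_pow hz, ← La_ex z (k * _)]
  have hL : La z ((AA z Q k - k) * (-2 * D + g + g'))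
        (BB z Q k * (-1 + (1 - 2 * D) ^ 3 + g ^ 3 + g' ^ 3)) =
      La z (AA z Q k * -1) (BB z Q k * (-1) ^ 3) * La z (AA z Q k * g) (BB z Q k * g ^ 3) *
        La z (AA z Q k * g') (BB z Q k * g' ^ 3) *
        La z (AA z Q k * (1 - 2 * D)) (BB z Q k * (1 - 2 * D) ^ 3) *
        La z (k * (2 * D - g - g')) 0 := by
    simp only [← La_add hz]
    congr 1 <;> ring
  rw [hL]
  generalize Ring.inverse (poch Q Q k * poch (Q * ex z (-g - 1)) Q k *
    poch (Q * ex z (-g' - 1)) Q k * poch (Q * ex z (2 * D - 2)) Q k) = w at hi ⊢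
  linear_combination (1 - Q * ex z (-2) * Q ^ (2 * k)) * Qi ^ k *
    (La z (AA z Q k * -1) (BB z Q k * (-1) ^ 3) * La z (AA z Q k * g) (BB z Q k * g ^ 3) *
        La z (AA z Q k * g') (BB z Q k * g' ^ 3) *
        La z (AA z Q k * (1 - 2 * D)) (BB z Q k * (1 - 2 * D) ^ 3) *
        La z (k * (2 * D - g - g')) 0) * hi

/-- the term of the original sum -/
noncomputable def t0 (Q a : R) (d k : ℕ) : R :=
  (1 - a * Q ^ (2 * k)) * (poch a Q k * Ring.inverse (poch Q Q k)) ^ (2 * d) * (Q ^ d) ^ k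

lemma t0_eq {z : R} (hz : z ^ 5 = 0) (h2 : IsUnit (2 : R)) {Q Qi : R} (hQ : Q * Qi = 1) {d : ℕ}
    (hn : Q ^ (d + 1) = ex z (2 * d)) (k : ℕ) (hU : ∀ i, i < k → IsUnit (1 - Q ^ (i + 1))) :
    t0 Q (Q * ex z (-2)) d k = (1 - Q * ex z (-2) * Q ^ (2 * k)) * Qi ^ k *
      La z ((AA z Q k - k) * (-2 * d)) (BB z Q k * (-2 * d)) := by
  have h1 := poch_rel hz h2 (-1) k hU
  have a1 : (-1 - 1 : R) = -2 := by ring
  have a2 : (-(-1) - 1 : R) = 0 := by ring
  rw [a1, a2, ex_zero, mul_one] at h1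
  have u1 := poch_unit hz 0 k hU
  rw [ex_zero, mul_one] at u1
  have hi := Ring.mul_inverse_cancel _ u1
  have hd : Q ^ d = Qi * ex z (2 * d) := by
    rw [← hn]; linear_combination (-Q ^ d) * hQ
  have h3 : poch (Q * ex z (-2)) Q k * Ring.inverse (poch Q Q k) =
      La z (AA z Q k * -1) (BB z Q k * (-1) ^ 3) := by
    rw [h1]; linear_combination La z (AA z Q k * -1) (BB z Q k * (-1) ^ 3) * hi
  rw [t0, h3, La_pow hz, hd, mul_pow, ex_pow hz, ← La_ex z (k * _)]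
  have hL : La z ((AA z Q k - k) * (-2 * d)) (BB z Q k * (-2 * d)) =
      La z (((2 * d : ℕ) : R) * (AA z Q k * -1)) (((2 * d : ℕ) : R) * (BB z Q k * (-1) ^ 3)) *
        La z (k * (2 * d)) 0 := by
    rw [← La_add hz]; congr 1 <;> push_cast <;> ring
  rw [hL]; ring

lemma term_lin {z : R} (hz : z ^ 5 = 0) (h2 : IsUnit (2 : R)) {Q Qi : R} (hQ : Q * Qi = 1)
    {d : ℕ} (hn : Q ^ (d + 1) = ex z (2 * d)) (k : ℕ)
    (hU : ∀ i, i < k → IsUnit (1 - Q ^ (i + 1))) :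
    48 * (t0 Q (Q * ex z (-2)) d k - tt z Q Qi d 1 (-1) k) =
      4 * d * (d - 1) * (2 * d - 1) * (tt z Q Qi d (-1) 3 k - tt z Q Qi d 1 1 k +
        tt z Q Qi d (-1) (-1) k - tt z Q Qi d 1 (-3) k) := by
  rw [t0_eq hz h2 hQ hn k hU]
  simp only [tt_eq hz h2 Qi _ _ _ k hU]
  have h := lin hz (AA z Q k - k) (BB z Q k) d
  linear_combination (1 - Q * ex z (-2) * Q ^ (2 * k)) * Qi ^ k * h

end Pool.Agent.P.MP_328b17_nt
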